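import Pool.Agent.H.MP_4cdc07_co.Main

set_option autoImplicit false

namespace Pool.Agent.Results.MP_b298ef_co.OddMult

open Finset

def walsh {n : ℕ} (F : (Fin n → ZMod 2) → Fin n → ZMod 2) (u v : Fin n → ZMod 2) : ℤ :=
  ∑ x, (-1) ^ (v ⬝ᵥ F x + u ⬝ᵥ x).val

def Plateaued {n : ℕ} (F : (Fin n → ZMod 2) → Fin n → ZMod 2) : Prop :=
  ∀ v ≠ 0, ∃ l : ℝ, 0 ≤ l ∧
    ∀ u, (walsh F u v : ℝ) = 0 ∨ (walsh F u v : ℝ) = l ∨ (walsh F u v : ℝ) = -l

def APN {n : ℕ} (F : (Fin n → ZMod 2) → Fin n → ZMod 2) : Prop :=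
  ∀ a ≠ 0, ∀ b, (univ.filter fun x => F x + F (x + a) = b).card = 0 ∨
    (univ.filter fun x => F x + F (x + a) = b).card = 2

def graph {n : ℕ} (F : (Fin n → ZMod 2) → Fin n → ZMod 2) :
    Finset ((Fin n → ZMod 2) × (Fin n → ZMod 2)) :=
  univ.image fun x => (x, F x)

def mult {n : ℕ} (F : (Fin n → ZMod 2) → Fin n → ZMod 2)
    (p : (Fin n → ZMod 2) × (Fin n → ZMod 2)) : ℕ :=
  (((graph F).powersetCard 3).filter fun T => ∑ q ∈ T, q = p).card

theorem result (n : ℕ) (hn : 3 ≤ n) (F : (Fin n → ZMod 2) → Fin n → ZMod 2)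
    (hP : Plateaued F) (hA : APN F) (p : (Fin n → ZMod 2) × (Fin n → ZMod 2))
    (hp : p ∉ graph F) : Odd (mult F p) := by
  obtain ⟨a, b⟩ := p
  have hb : b ≠ F a := by
    rintro rfl
    exact hp (mem_image.2 ⟨a, mem_univ _, rfl⟩)
  have hW : ∀ u v, walsh F u v = Pool.Agent.H.MP_4cdc07_co.W F u v := by
    intro u v
    unfold walsh Pool.Agent.H.MP_4cdc07_co.W Pool.Agent.H.MP_4cdc07_co.chi
    simp only [add_comm]
  refine Pool.Agent.H.MP_4cdc07_co.odd_mult hn F ?_ ?_ a b hb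
  · intro v hv
    simpa only [hW] using hP v hv
  · intro a ha b
    rcases hA a ha b with h | h
    · exact h.le.trans (Nat.zero_le 2)
    · exact h.le

end Pool.Agent.Results.MP_b298ef_co.OddMult
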